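import Mathlib

/-!
# Trace functions: Klein's inequality, derivatives along paths, the lowering `S_t X S_t`
-/

set_option autoImplicit false

open scoped BigOperators ComplexOrder Kronecker MatrixOrder Topology
open MeasureTheory Set Matrix Filter

namespace Pool.Agent.Lib_helper44.G34

variable {n : Type} [Fintype n] [DecidableEq n]

/-- `Tr f(M)` -/
noncomputable def tf (f : ℝ → ℝ) (M : Matrix n n ℂ) : ℝ := ((cfc f M).trace).re

/-- `Tr M ^ p` -/
noncomputable def tp (p : ℝ) (M : Matrix n n ℂ) : ℝ := tf (fun x : ℝ => x ^ p) M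

/-- `M ^ p` -/
noncomputable def mp (p : ℝ) (M : Matrix n n ℂ) : Matrix n n ℂ := cfc (fun x : ℝ => x ^ p) M

/-! ### continuity of the functional calculus -/

section
open scoped Matrix.Norms.L2Operator

private theorem cont_cfc_aux {X : Type*} [TopologicalSpace X]
    (f : ℝ → ℝ) (hf : Continuous f) (a : X → Matrix n n ℂ) (ha : Continuous a)
    (hs : ∀ x, (a x).IsHermitian) : Continuous fun x => cfc f (a x) :=
  Continuous.cfc_of_mem_nhdsSet (𝕜 := ℝ) (A := Matrix n n ℂ) (s := Set.univ) f (a := a)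
    (Filter.univ_mem) ha (fun x => (hs x)) hf.continuousOn

private theorem contOn_cfc_aux {X : Type*} [TopologicalSpace X] {t : Set X}
    (f : ℝ → ℝ) (hf : Continuous f) (a : X → Matrix n n ℂ) (ha : ContinuousOn a t)
    (hs : ∀ x ∈ t, (a x).IsHermitian) : ContinuousOn (fun x => cfc f (a x)) t :=
  ContinuousOn.cfc_of_mem_nhdsSet (𝕜 := ℝ) (A := Matrix n n ℂ) (s := Set.univ) f (a := a)
    (Filter.univ_mem) ha (fun x hx => (hs x hx)) hf.continuousOn

end

/-- `x ↦ f (a x)` is continuous for continuous `f` and hermitian continuous `a`. -/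
theorem cont_cfc {X : Type*} [TopologicalSpace X]
    (f : ℝ → ℝ) (hf : Continuous f) (a : X → Matrix n n ℂ) (ha : Continuous a)
    (hs : ∀ x, (a x).IsHermitian) : Continuous fun x => cfc f (a x) :=
  cont_cfc_aux f hf a ha hs

theorem contOn_cfc {X : Type*} [TopologicalSpace X] {t : Set X}
    (f : ℝ → ℝ) (hf : Continuous f) (a : X → Matrix n n ℂ) (ha : ContinuousOn a t)
    (hs : ∀ x ∈ t, (a x).IsHermitian) : ContinuousOn (fun x => cfc f (a x)) t :=
  contOn_cfc_aux f hf a ha hs

theorem cont_mp {X : Type*} [TopologicalSpace X] {p : ℝ} (hp : 0 ≤ p)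
    {a : X → Matrix n n ℂ} (ha : Continuous a)
    (hs : ∀ x, (a x).IsHermitian) : Continuous fun x => mp p (a x) :=
  cont_cfc _ (Real.continuous_rpow_const hp) a ha hs

/-! ### spectral form -/

/-- the spectral form of `cfc f M` -/
theorem cfc_spec {M : Matrix n n ℂ} (h : M.IsHermitian) (f : ℝ → ℝ) :
    cfc f M = (h.eigenvectorUnitary : Matrix n n ℂ) *
      diagonal (fun i => ((f (h.eigenvalues i) : ℝ) : ℂ)) *
      (h.eigenvectorUnitary : Matrix n n ℂ)ᴴ := by
  rw [h.cfc_eq, Matrix.IsHermitian.cfc, Unitary.conjStarAlgAut_apply]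
  rfl

theorem tf_eq_sum (f : ℝ → ℝ) {M : Matrix n n ℂ} (h : M.IsHermitian) :
    tf f M = ∑ i, f (h.eigenvalues i) := by
  have hU : (h.eigenvectorUnitary : Matrix n n ℂ)ᴴ * (h.eigenvectorUnitary : Matrix n n ℂ) = 1 :=
    (mem_unitaryGroup_iff').1 h.eigenvectorUnitary.2
  unfold tf
  rw [cfc_spec h, Matrix.trace_mul_comm, ← Matrix.mul_assoc, hU, Matrix.one_mul,
    Matrix.trace_diagonal]
  simp

theorem tp_eq (p : ℝ) (M : Matrix n n ℂ) : tp p M = ((mp p M).trace).re := rfl

/-- the overlaps of two eigenbases -/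
noncomputable def ov {X Y : Matrix n n ℂ} (hX : X.IsHermitian) (hY : Y.IsHermitian) (i j : n) : ℝ :=
  ‖((hX.eigenvectorUnitary : Matrix n n ℂ)ᴴ * (hY.eigenvectorUnitary : Matrix n n ℂ)) i j‖ ^ 2

theorem ov_nonneg {X Y : Matrix n n ℂ} (hX : X.IsHermitian) (hY : Y.IsHermitian) (i j : n) :
    0 ≤ ov hX hY i j := by unfold ov; positivity

theorem trace_cfc_mul_cfc {X Y : Matrix n n ℂ} (hX : X.IsHermitian) (hY : Y.IsHermitian)
    (f g : ℝ → ℝ) : (cfc f X * cfc g Y).trace =
      ((∑ i, ∑ j, f (hX.eigenvalues i) * g (hY.eigenvalues j) * ov hX hY i j : ℝ) : ℂ) := by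
  rw [cfc_spec hX, cfc_spec hY]
  set U : Matrix n n ℂ := (hX.eigenvectorUnitary : Matrix n n ℂ) with hU
  set V : Matrix n n ℂ := (hY.eigenvectorUnitary : Matrix n n ℂ) with hV
  have e1 : (U * diagonal (fun i => ((f (hX.eigenvalues i) : ℝ) : ℂ)) * Uᴴ *
      (V * diagonal (fun i => ((g (hY.eigenvalues i) : ℝ) : ℂ)) * Vᴴ)).trace =
      (diagonal (fun i => ((f (hX.eigenvalues i) : ℝ) : ℂ)) * (Uᴴ * V) *
        diagonal (fun i => ((g (hY.eigenvalues i) : ℝ) : ℂ)) * (Uᴴ * V)ᴴ).trace := by
    rw [Matrix.conjTranspose_mul, Matrix.conjTranspose_conjTranspose]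
    rw [show U * diagonal (fun i => ((f (hX.eigenvalues i) : ℝ) : ℂ)) * Uᴴ *
      (V * diagonal (fun i => ((g (hY.eigenvalues i) : ℝ) : ℂ)) * Vᴴ) =
      U * (diagonal (fun i => ((f (hX.eigenvalues i) : ℝ) : ℂ)) * Uᴴ *
      (V * diagonal (fun i => ((g (hY.eigenvalues i) : ℝ) : ℂ)) * Vᴴ)) by
        simp only [Matrix.mul_assoc], Matrix.trace_mul_comm]
    simp only [Matrix.mul_assoc]
  rw [e1, Matrix.trace]
  push_cast
  apply Finset.sum_congr rfl
  intro i _
  rw [Matrix.diag_apply, Matrix.mul_apply]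
  apply Finset.sum_congr rfl
  intro j _
  rw [Matrix.mul_diagonal, Matrix.diagonal_mul, Matrix.conjTranspose_apply]
  have e2 : ((ov hX hY i j : ℝ) : ℂ) = (Uᴴ * V) i j * star ((Uᴴ * V) i j) := by
    unfold ov
    rw [← hU, ← hV]
    rw [Complex.star_def, Complex.mul_conj, Complex.normSq_eq_norm_sq]
  rw [e2]
  ring

theorem cfc_one' {M : Matrix n n ℂ} (h : M.IsHermitian) : cfc (fun _ : ℝ => (1 : ℝ)) M = 1 := by
  rw [cfc_spec h]
  have e : diagonal (fun i => (((fun _ : ℝ => (1 : ℝ)) (h.eigenvalues i) : ℝ) : ℂ)) =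
      (1 : Matrix n n ℂ) := by
    simp
  rw [e, Matrix.mul_one]
  exact (mem_unitaryGroup_iff).1 h.eigenvectorUnitary.2

theorem cfc_id' {M : Matrix n n ℂ} (h : M.IsHermitian) : cfc (fun x : ℝ => x) M = M := by
  exact cfc_id ℝ M h

/-- Klein's inequality -/
theorem klein {f g : ℝ → ℝ} {X Y : Matrix n n ℂ} (hX : X.IsHermitian) (hY : Y.IsHermitian)
    (h : ∀ i j, f (hY.eigenvalues j) + g (hY.eigenvalues j) *
      (hX.eigenvalues i - hY.eigenvalues j) ≤ f (hX.eigenvalues i)) :
    tf f Y + ((cfc g Y * (X - Y)).trace).re ≤ tf f X := by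
  have h1 : tf f X =
      ∑ i, ∑ j, f (hX.eigenvalues i) * 1 * ov hX hY i j := by
    have := trace_cfc_mul_cfc hX hY f (fun _ => 1)
    rw [cfc_one' hY, Matrix.mul_one] at this
    unfold tf
    rw [this, Complex.ofReal_re]
  have h2 : tf f Y =
      ∑ i, ∑ j, 1 * f (hY.eigenvalues j) * ov hX hY i j := by
    have := trace_cfc_mul_cfc hX hY (fun _ => 1) f
    rw [cfc_one' hX, Matrix.one_mul] at this
    unfold tf
    rw [this, Complex.ofReal_re]
  have h3 : ((cfc g Y * X).trace).re =
      ∑ i, ∑ j, hX.eigenvalues i * g (hY.eigenvalues j) * ov hX hY i j := by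
    have := trace_cfc_mul_cfc hX hY (fun x => x) g
    rw [cfc_id' hX] at this
    rw [Matrix.trace_mul_comm, this, Complex.ofReal_re]
  have h4 : ((cfc g Y * Y).trace).re =
      ∑ i, ∑ j, 1 * (g (hY.eigenvalues j) * hY.eigenvalues j) * ov hX hY i j := by
    have h5 := trace_cfc_mul_cfc hX hY (fun _ => 1) (fun x => g x * x)
    rw [cfc_one' hX, Matrix.one_mul] at h5
    have h6 : cfc (fun x => g x * x) Y = cfc g Y * Y := by
      have := cfc_mul (R := ℝ) (a := Y) g (fun x => x)
        (hf := by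
          have := hY.isSelfAdjoint
          exact (Matrix.finite_real_spectrum (A := Y)).continuousOn g)
        (hg := continuousOn_id)
      rw [this, cfc_id' hY]
    rw [← h6, h5, Complex.ofReal_re]
  rw [Matrix.mul_sub, Matrix.trace_sub, Complex.sub_re, h1, h2, h3, h4, ← sub_nonneg]
  have h7 : (∑ i, ∑ j, f (hX.eigenvalues i) * 1 * ov hX hY i j) -
      ((∑ i, ∑ j, 1 * f (hY.eigenvalues j) * ov hX hY i j) +
      ((∑ i, ∑ j, hX.eigenvalues i * g (hY.eigenvalues j) * ov hX hY i j) -
      ∑ i, ∑ j, 1 * (g (hY.eigenvalues j) * hY.eigenvalues j) * ov hX hY i j)) =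
      ∑ i, ∑ j, (f (hX.eigenvalues i) - (f (hY.eigenvalues j) + g (hY.eigenvalues j) *
      (hX.eigenvalues i - hY.eigenvalues j))) * ov hX hY i j := by
    simp only [← Finset.sum_sub_distrib, ← Finset.sum_add_distrib]
    apply Finset.sum_congr rfl
    intro i _
    apply Finset.sum_congr rfl
    intro j _
    ring
  rw [h7]
  apply Finset.sum_nonneg
  intro i _
  apply Finset.sum_nonneg
  intro j _
  exact mul_nonneg (sub_nonneg.2 (h i j)) (ov_nonneg _ _ _ _)

/-- the scalar inequality `x^p ≥ y^p + p y^(p-1) (x - y)` -/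
theorem rpow_tangent {p x y : ℝ} (hp : 1 ≤ p) (hx : 0 ≤ x) (hy : 0 ≤ y) :
    y ^ p + p * y ^ (p - 1) * (x - y) ≤ x ^ p := by
  rcases hy.eq_or_lt with rfl | hy0
  · rcases hp.eq_or_lt with rfl | hp1
    · simp
    · rw [Real.zero_rpow (by linarith), Real.zero_rpow (by linarith)]
      have := Real.rpow_nonneg hx p
      simpa using this
  · have h1 := one_add_mul_self_le_rpow_one_add (s := x / y - 1) (p := p)
      (by have := div_nonneg hx hy; linarith) hp
    have h2 : x ^ p = y ^ p * (1 + (x / y - 1)) ^ p := by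
      rw [show 1 + (x / y - 1) = x / y by ring, Real.div_rpow hx hy]
      have := (Real.rpow_pos_of_pos hy0 p).ne'
      field_simp
    have h3 : y ^ p = y ^ (p - 1) * y := by
      rw [← Real.rpow_add_one hy0.ne']
      congr 1
      ring
    have h4 : y ^ p + p * y ^ (p - 1) * (x - y) = y ^ p * (1 + p * (x / y - 1)) := by
      rw [h3]
      field_simp
    rw [h4, h2]
    exact mul_le_mul_of_nonneg_left h1 (Real.rpow_nonneg hy p)

/-- trace Klein inequality for powers -/
theorem tk {p : ℝ} (hp : 1 ≤ p) {X Y : Matrix n n ℂ} (hX : X.PosSemidef) (hY : Y.PosSemidef) :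
    tp p Y + p * ((mp (p - 1) Y * (X - Y)).trace).re ≤ tp p X := by
  have h := klein (f := fun x : ℝ => x ^ p) (g := fun x : ℝ => p * x ^ (p - 1)) hX.1 hY.1
    (fun i j => rpow_tangent hp (hX.eigenvalues_nonneg i) (hY.eigenvalues_nonneg j))
  have e : cfc (fun x : ℝ => p * x ^ (p - 1)) Y = (p : ℂ) • mp (p - 1) Y := by
    unfold mp
    rw [cfc_spec hY.1, cfc_spec hY.1, ← Matrix.smul_mul, ← Matrix.mul_smul, ← Matrix.diagonal_smul]
    congr 3
    ext i
    simp
  rw [e, Matrix.smul_mul, Matrix.trace_smul, smul_eq_mul, Complex.re_ofReal_mul] at h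
  exact h


/-! ### derivatives along paths -/

theorem rpow_mul_self {p x : ℝ} (hp : 1 < p) (hx : 0 ≤ x) : x ^ (p - 1) * x = x ^ p := by
  rcases hx.eq_or_lt with rfl | hx0
  · rw [Real.zero_rpow (by linarith), Real.zero_rpow (by linarith)]
    simp
  · rw [← Real.rpow_add_one hx0.ne']
    congr 1
    ring

theorem mp_mul_self {p : ℝ} (hp : 1 < p) {M : Matrix n n ℂ} (hM : M.PosSemidef) :
    mp (p - 1) M * M = mp p M ∧ M * mp (p - 1) M = mp p M := by
  have key : ∀ f g : ℝ → ℝ, cfc f M * cfc g M = cfc (fun x => f x * g x) M := by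
    intro f g
    have hU : (hM.1.eigenvectorUnitary : Matrix n n ℂ)ᴴ *
      (hM.1.eigenvectorUnitary : Matrix n n ℂ) = 1 :=
      (mem_unitaryGroup_iff').1 hM.1.eigenvectorUnitary.2
    rw [cfc_spec hM.1, cfc_spec hM.1, cfc_spec hM.1]
    set U : Matrix n n ℂ := (hM.1.eigenvectorUnitary : Matrix n n ℂ)
    calc U * diagonal (fun i => ((f (hM.1.eigenvalues i) : ℝ) : ℂ)) * Uᴴ *
          (U * diagonal (fun i => ((g (hM.1.eigenvalues i) : ℝ) : ℂ)) * Uᴴ)
        = U * (diagonal (fun i => ((f (hM.1.eigenvalues i) : ℝ) : ℂ)) * (Uᴴ * U) *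
            diagonal (fun i => ((g (hM.1.eigenvalues i) : ℝ) : ℂ))) * Uᴴ := by
          simp only [Matrix.mul_assoc]
      _ = _ := by
          rw [hU, Matrix.mul_one, Matrix.diagonal_mul_diagonal]
          push_cast
          rfl
  have e : cfc (fun x : ℝ => x ^ (p - 1) * x) M = mp p M := by
    unfold mp
    rw [cfc_spec hM.1, cfc_spec hM.1]
    congr 3
    ext i
    rw [rpow_mul_self hp (hM.eigenvalues_nonneg i)]
  constructor
  · rw [← e, ← key (fun x => x ^ (p - 1)) (fun x => x), cfc_id' hM.1]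
    rfl
  · have e2 : (fun x : ℝ => x ^ (p - 1) * x) = fun x : ℝ => x * x ^ (p - 1) := by
      ext x
      ring
    rw [← e, e2, ← key (fun x => x) (fun x => x ^ (p - 1)), cfc_id' hM.1]
    rfl

/-- derivative of `Tr X_t^p` along a path with `X s - X t = (s - t) • Q s` -/
theorem hasDerivAt_tp {p : ℝ} (hp : 1 < p) {X Q : ℝ → Matrix n n ℂ} {t : ℝ}
    (hX : ∀ s, (X s).PosSemidef) (hXc : Continuous X) (hQ : ∀ s, X s - X t = (s - t) • Q s)
    (hQc : Continuous Q) :
    HasDerivAt (fun s => tp p (X s)) (p * ((mp (p - 1) (X t) * Q t).trace).re) t := by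
  rw [hasDerivAt_iff_tendsto_slope]
  set L := p * ((mp (p - 1) (X t) * Q t).trace).re with hL
  set a : ℝ → ℝ := fun s => p * ((mp (p - 1) (X t) * Q s).trace).re with ha
  set b : ℝ → ℝ := fun s => p * ((mp (p - 1) (X s) * Q s).trace).re with hb
  have hac : Continuous a :=
    continuous_const.mul (Complex.continuous_re.comp (continuous_const.matrix_mul hQc).matrix_trace)
  have hbc : Continuous b :=
    continuous_const.mul (Complex.continuous_re.comp
      ((cont_mp (by linarith) hXc fun s => (hX s).1).matrix_mul hQc).matrix_trace)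
  have h1 : ∀ s, s ≠ t → |slope (fun s => tp p (X s)) t s - L| ≤ |a s - L| + |b s - L| := by
    intro s hs
    have k1 := tk hp.le (hX s) (hX t)
    have k2 := tk hp.le (hX t) (hX s)
    rw [hQ s] at k1
    have e2 : X t - X s = (t - s) • Q s := by
      rw [← neg_sub, hQ s, ← neg_smul]
      congr 1
      ring
    rw [e2] at k2
    rw [Matrix.mul_smul, Matrix.trace_smul, Complex.smul_re, smul_eq_mul] at k1 k2
    have k1' : (s - t) * a s ≤ tp p (X s) - tp p (X t) := by
      simp only [ha]
      nlinarith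
    have k2' : tp p (X s) - tp p (X t) ≤ (s - t) * b s := by
      simp only [hb]
      nlinarith
    rw [slope_def_field]
    set v := tp p (X s) - tp p (X t)
    rcases lt_or_gt_of_ne hs with h | h
    · have h3 : v / (s - t) ≤ a s := by
        rw [div_le_iff_of_neg (by linarith)]
        nlinarith
      have h4 : b s ≤ v / (s - t) := by
        rw [le_div_iff_of_neg (by linarith)]
        nlinarith
      rw [abs_le]
      have := le_abs_self (a s - L)
      have := neg_abs_le (b s - L)
      have := abs_nonneg (a s - L)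
      have := abs_nonneg (b s - L)
      constructor <;> linarith
    · have h3 : a s ≤ v / (s - t) := by
        rw [le_div_iff₀ (by linarith)]
        nlinarith
      have h4 : v / (s - t) ≤ b s := by
        rw [div_le_iff₀ (by linarith)]
        nlinarith
      rw [abs_le]
      have := le_abs_self (b s - L)
      have := neg_abs_le (a s - L)
      have := abs_nonneg (a s - L)
      have := abs_nonneg (b s - L)
      constructor <;> linarith
  have h2 : Tendsto (fun s => |a s - L| + |b s - L|) (𝓝[≠] t) (𝓝 0) := by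
    have h3 : Continuous fun s => |a s - L| + |b s - L| :=
      ((hac.sub continuous_const).abs).add ((hbc.sub continuous_const).abs)
    have h4 := h3.tendsto t
    have h5 : |a t - L| + |b t - L| = 0 := by
      simp [ha, hb, hL]
    rw [h5] at h4
    exact h4.mono_left nhdsWithin_le_nhds
  rw [tendsto_iff_norm_sub_tendsto_zero]
  refine squeeze_zero' ?_ ?_ h2
  · exact Eventually.of_forall fun s => norm_nonneg _
  · filter_upwards [self_mem_nhdsWithin] with s hs
    exact h1 s hs

/-! ### the lowering -/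

/-- `t P + (1 - P)` -/
noncomputable def St (P : Matrix n n ℂ) (t : ℝ) : Matrix n n ℂ := (t : ℂ) • P + (1 - P)

/-- `S_t X S_t` -/
noncomputable def low (X P : Matrix n n ℂ) (t : ℝ) : Matrix n n ℂ := St P t * X * St P t

theorem cont_St (P : Matrix n n ℂ) : Continuous (St P) :=
  (Complex.continuous_ofReal.smul continuous_const).add continuous_const

theorem cont_low (X P : Matrix n n ℂ) : Continuous (low X P) :=
  ((cont_St P).matrix_mul continuous_const).matrix_mul (cont_St P)

theorem St_herm {P : Matrix n n ℂ} (hP : P.IsHermitian) (t : ℝ) : (St P t)ᴴ = St P t := by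
  unfold St
  rw [Matrix.conjTranspose_add, Matrix.conjTranspose_smul, Matrix.conjTranspose_sub, hP.eq,
    Matrix.conjTranspose_one]
  simp

theorem St_one (P : Matrix n n ℂ) : St P 1 = 1 := by
  unfold St
  simp

theorem St_zero (P : Matrix n n ℂ) : St P 0 = 1 - P := by
  unfold St
  simp

theorem St_mul {P : Matrix n n ℂ} (hPP : P * P = P) (t : ℝ) :
    P * St P t = (t : ℂ) • P ∧ St P t * P = (t : ℂ) • P := by
  unfold St
  constructor
  · rw [Matrix.mul_add, Matrix.mul_smul, Matrix.mul_sub, hPP]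
    simp
  · rw [Matrix.add_mul, Matrix.smul_mul, Matrix.sub_mul, hPP]
    simp

theorem low_one (X P : Matrix n n ℂ) : low X P 1 = X := by
  unfold low
  rw [St_one, Matrix.one_mul, Matrix.mul_one]

theorem low_zero (X P : Matrix n n ℂ) : low X P 0 = (1 - P) * X * (1 - P) := by
  unfold low
  rw [St_zero]

theorem low_psd {X P : Matrix n n ℂ} (hX : X.PosSemidef) (hP : P.IsHermitian) (t : ℝ) :
    (low X P t).PosSemidef := by
  have h := hX.mul_mul_conjTranspose_same (St P t)
  rw [St_herm hP] at h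
  exact h

/-- `p`-th power of a PSD matrix is PSD -/
theorem mp_psd (p : ℝ) {M : Matrix n n ℂ} (hM : M.PosSemidef) : (mp p M).PosSemidef := by
  unfold mp
  rw [cfc_spec hM.1]
  apply Matrix.PosSemidef.mul_mul_conjTranspose_same
  apply Matrix.PosSemidef.diagonal
  intro i
  have h := Real.rpow_nonneg (hM.eigenvalues_nonneg i) p
  show (0 : ℂ) ≤ ((hM.1.eigenvalues i ^ p : ℝ) : ℂ)
  exact_mod_cast h

theorem trace_proj_nonneg {P Y : Matrix n n ℂ} (hP : P.IsHermitian) (hPP : P * P = P)
    (hY : Y.PosSemidef) : 0 ≤ ((P * Y).trace).re := by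
  have h1 : (P * Y).trace = (P * Y * P).trace := by
    rw [Matrix.trace_mul_comm (P * Y) P, ← Matrix.mul_assoc, hPP]
  have h2 := hY.mul_mul_conjTranspose_same P
  rw [hP.eq] at h2
  rw [h1]
  exact (Complex.nonneg_iff.1 h2.trace_nonneg).1

/-- the derivative of the lowered trace -/
theorem hasDerivAt_low {X P : Matrix n n ℂ} (hX : X.PosSemidef) (hP : P.IsHermitian)
    (hPP : P * P = P) {p : ℝ} (hp : 1 < p) {t : ℝ} (ht : 0 < t) :
    HasDerivAt (fun s => tp p (low X P s))
      (2 * p / t * ((P * mp p (low X P t)).trace).re) t := by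
  have h := hasDerivAt_tp hp (X := low X P) (Q := fun s => P * X * St P s + St P t * X * P)
    (t := t) (low_psd hX hP) (cont_low X P) ?_ ?_
  · convert h using 1
    have ht' : (t : ℂ) ≠ 0 := by exact_mod_cast ht.ne'
    obtain ⟨s1, s2⟩ := St_mul hPP t
    have e1 : P * X * St P t = (t : ℂ)⁻¹ • (P * low X P t) := by
      unfold low
      rw [← Matrix.mul_assoc, ← Matrix.mul_assoc, s1, Matrix.smul_mul, Matrix.smul_mul, smul_smul,
        inv_mul_cancel₀ ht', one_smul]
    have e2 : St P t * X * P = (t : ℂ)⁻¹ • (low X P t * P) := by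
      unfold low
      rw [Matrix.mul_assoc (St P t * X), s2, Matrix.mul_smul, smul_smul,
        inv_mul_cancel₀ ht', one_smul]
    obtain ⟨m1, m2⟩ := mp_mul_self hp (low_psd hX hP t)
    have e3 : (mp (p - 1) (low X P t) * (P * X * St P t + St P t * X * P)).trace =
        (t : ℂ)⁻¹ * (2 * (P * mp p (low X P t)).trace) := by
      rw [e1, e2, Matrix.mul_add, Matrix.mul_smul, Matrix.mul_smul, Matrix.trace_add,
        Matrix.trace_smul, Matrix.trace_smul, smul_eq_mul, smul_eq_mul]
      have e4 : (mp (p - 1) (low X P t) * (P * low X P t)).trace =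
          (P * mp p (low X P t)).trace := by
        rw [Matrix.trace_mul_comm, Matrix.mul_assoc, m2]
      have e5 : (mp (p - 1) (low X P t) * (low X P t * P)).trace =
          (P * mp p (low X P t)).trace := by
        rw [← Matrix.mul_assoc, m1, Matrix.trace_mul_comm]
      rw [e4, e5]
      ring
    rw [e3, ← Complex.ofReal_inv, Complex.re_ofReal_mul]
    have e6 : (2 * (P * mp p (low X P t)).trace).re = 2 * ((P * mp p (low X P t)).trace).re := by
      simp
    rw [e6]
    field_simp
  · intro s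
    have e : St P s = St P t + ((s - t : ℝ) : ℂ) • P := by
      unfold St
      push_cast
      rw [sub_smul]
      abel
    have e' : St P s * X * St P s - St P t * X * St P t =
        ((s - t : ℝ) : ℂ) • (P * X * St P s + St P t * X * P) := by
      have : St P s * X * St P s = St P t * X * St P s + ((s - t : ℝ) : ℂ) • (P * X * St P s) := by
        conv_lhs => rw [show St P s * X * St P s = St P s * (X * St P s) by
          simp only [Matrix.mul_assoc]]
        conv_lhs => enter [1]; rw [e]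
        rw [Matrix.add_mul, Matrix.smul_mul]
        simp only [Matrix.mul_assoc]
      have h2 : St P t * X * St P s = St P t * X * St P t +
          ((s - t : ℝ) : ℂ) • (St P t * X * P) := by
        conv_lhs => enter [2]; rw [e]
        rw [Matrix.mul_add, Matrix.mul_smul]
      rw [this, h2, smul_add]
      abel
    unfold low
    rw [e']
    ext i j
    simp only [Matrix.smul_apply, Matrix.add_apply, smul_eq_mul, Complex.real_smul]
  · exact (continuous_const.matrix_mul (cont_St P)).add continuous_const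

/-- **The fundamental theorem for the lowering.** -/
theorem ftc {X P : Matrix n n ℂ} (hX : X.PosSemidef) (hP : P.IsHermitian)
    (hPP : P * P = P) {p : ℝ} (hp : 1 < p) :
    Continuous (fun t => tp p (low X P t)) ∧
    (∀ t, 0 < t → HasDerivAt (fun s => tp p (low X P s))
      (2 * p / t * ((P * mp p (low X P t)).trace).re) t) ∧
    (∀ t, 0 ≤ ((P * mp p (low X P t)).trace).re) ∧
    IntervalIntegrable (fun t => 2 * p / t * ((P * mp p (low X P t)).trace).re) volume 0 1 ∧
    ∫ t in (0 : ℝ)..1, 2 * p / t * ((P * mp p (low X P t)).trace).re =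
      tp p X - tp p ((1 - P) * X * (1 - P)) := by
  have h1 : Continuous (fun t => tp p (low X P t)) := by
    have : (fun t => tp p (low X P t)) = fun t => ((mp p (low X P t)).trace).re := by
      ext t
      exact tp_eq _ _
    rw [this]
    exact Complex.continuous_re.comp
      (cont_mp (by linarith) (cont_low X P) fun t => (low_psd hX hP t).1).matrix_trace
  have h2 := fun t (ht : 0 < t) => hasDerivAt_low hX hP hPP hp ht
  have h3 : ∀ t, 0 ≤ ((P * mp p (low X P t)).trace).re := fun t =>
    trace_proj_nonneg hP hPP (mp_psd p (low_psd hX hP t))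
  have h4 : IntegrableOn (fun t => 2 * p / t * ((P * mp p (low X P t)).trace).re) (Ioc 0 1) := by
    apply intervalIntegral.integrableOn_deriv_of_nonneg (g := fun t => tp p (low X P t))
    · exact h1.continuousOn
    · intro t ht
      exact h2 t ht.1
    · intro t ht
      have := ht.1
      exact mul_nonneg (by positivity) (h3 t)
  have h5 : IntervalIntegrable (fun t => 2 * p / t * ((P * mp p (low X P t)).trace).re)
      volume 0 1 := by
    rw [intervalIntegrable_iff_integrableOn_Ioc_of_le zero_le_one]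
    exact h4
  refine ⟨h1, h2, h3, h5, ?_⟩
  rw [intervalIntegral.integral_eq_sub_of_hasDerivAt_of_le zero_le_one h1.continuousOn
    (fun t ht => h2 t ht.1) h5, low_one, low_zero]


/-! ### the coordinate form -/

/-- `t` on `Z`, `1` off `Z` -/
noncomputable def SZ (Z : Finset n) (t : ℝ) : Matrix n n ℂ :=
  diagonal fun i => if i ∈ Z then (t : ℂ) else 1

theorem SZ_eq (Z : Finset n) (t : ℝ) :
    SZ Z t = St (diagonal fun i => if i ∈ Z then (1 : ℂ) else 0) t := by
  unfold SZ St
  ext i j
  by_cases hij : i = j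
  · subst hij
    by_cases h : i ∈ Z <;> simp [h]
  · simp [hij]

theorem SZ_zero (Z : Finset n) : SZ Z 0 = diagonal fun i => if i ∈ Z then (0 : ℂ) else 1 := by
  unfold SZ
  simp

theorem SZ_one (Z : Finset n) : SZ Z 1 = 1 := by
  unfold SZ
  simp

/-- **FTC for the lowering of the coordinates in `Z`.** -/
theorem ftc_Z {X : Matrix n n ℂ} (hX : X.PosSemidef) (Z : Finset n) {p : ℝ} (hp : 1 < p) :
    Continuous (fun t : ℝ => tp p (SZ Z t * X * SZ Z t)) ∧
    (∀ t : ℝ, 0 < t → HasDerivAt (fun s : ℝ => tp p (SZ Z s * X * SZ Z s))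
      (2 * p / t * ∑ i ∈ Z, (mp p (SZ Z t * X * SZ Z t) i i).re) t) ∧
    (∀ t : ℝ, 0 ≤ ∑ i ∈ Z, (mp p (SZ Z t * X * SZ Z t) i i).re) ∧
    (∀ t : ℝ, (SZ Z t * X * SZ Z t).PosSemidef) ∧
    IntervalIntegrable (fun t : ℝ => 2 * p / t * ∑ i ∈ Z, (mp p (SZ Z t * X * SZ Z t) i i).re)
      volume 0 1 ∧
    ∫ t in (0 : ℝ)..1, 2 * p / t * ∑ i ∈ Z, (mp p (SZ Z t * X * SZ Z t) i i).re =
      tp p X - tp p (SZ Z 0 * X * SZ Z 0) := by
  set P : Matrix n n ℂ := diagonal fun i => if i ∈ Z then (1 : ℂ) else 0 with hPdef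
  have hP : P.IsHermitian := by
    rw [hPdef, Matrix.IsHermitian, Matrix.diagonal_conjTranspose]
    congr 1
    ext i
    by_cases h : i ∈ Z <;> simp [h]
  have hPP : P * P = P := by
    rw [hPdef, Matrix.diagonal_mul_diagonal]
    congr 1
    ext i
    by_cases h : i ∈ Z <;> simp [h]
  have e : ∀ Y : Matrix n n ℂ, ((P * Y).trace).re = ∑ i ∈ Z, (Y i i).re := by
    intro Y
    rw [hPdef, Matrix.trace, Complex.re_sum, ← Finset.sum_subset (Finset.subset_univ Z)]
    · apply Finset.sum_congr rfl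
      intro i hi
      rw [Matrix.diag_apply, Matrix.diagonal_mul, if_pos hi, one_mul]
    · intro i _ hi
      rw [Matrix.diag_apply, Matrix.diagonal_mul, if_neg hi, zero_mul, Complex.zero_re]
  have e2 : ∀ t : ℝ, SZ Z t * X * SZ Z t = low X P t := by
    intro t
    rw [SZ_eq]
    rfl
  have e3 : SZ Z 0 * X * SZ Z 0 = (1 - P) * X * (1 - P) := by
    rw [e2, low_zero]
  obtain ⟨h1, h2, h3, h4, h5⟩ := ftc hX hP hPP hp
  rw [e3]
  simp only [e2]
  simp only [e] at h2 h3 h4 h5
  exact ⟨h1, h2, h3, fun t => low_psd hX hP t, h4, h5⟩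

end Pool.Agent.Lib_helper44.G34
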